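import Pool.Agent.Q265.FC.Main

/-!
# MP_9feecb_co: graphs with few frustrated k-cycles
-/

set_option autoImplicit false
open Function

namespace Pool.Agent.Results.MP_9feecb_co.FewFrustratedCycles

/-- The number `f_k(G)` of frustrated `k`-cycles: sequences of `k` different vertices, read
cyclically (`finRotate k` is `i ↦ i + 1` modulo `k`), such that the number of indices `i` for which
the vertices number `i` and `i + 1` are adjacent is odd. -/
noncomputable def frustrated {n : ℕ} (k : ℕ) (G : SimpleGraph (Fin n)) : ℕ :=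
  Nat.card {f : Fin k ↪ Fin n // Odd (Nat.card {i : Fin k // G.Adj (f i) (f (finRotate k i))})}

/-- The star on `n` vertices with centre `0` and leaves `1, ..., s`. -/
def starGraph (n s : ℕ) : SimpleGraph (Fin n) where
  Adj x y := (x.val = 0 ∧ 1 ≤ y.val ∧ y.val ≤ s) ∨ (y.val = 0 ∧ 1 ≤ x.val ∧ x.val ≤ s)
  symm := ⟨fun _ _ h => h.elim Or.inr Or.inl⟩
  loopless := ⟨fun x h => by rcases h with ⟨h1, h2, h3⟩ | ⟨h1, h2, h3⟩ <;> omega⟩

/-- The complete bipartite graph with parts `A` and the complement of `A`. -/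
def bipartite {n : ℕ} (A : Set (Fin n)) : SimpleGraph (Fin n) where
  Adj x y := (x ∈ A ∧ y ∉ A) ∨ (x ∉ A ∧ y ∈ A)
  symm := ⟨fun _ _ h => h.elim (fun h => Or.inr ⟨h.2, h.1⟩) (fun h => Or.inl ⟨h.2, h.1⟩)⟩
  loopless := ⟨fun x h => by rcases h with ⟨h1, h2⟩ | ⟨h1, h2⟩ <;> contradiction⟩

/-- `G` differs from some complete bipartite graph in the adjacency of at most `t` pairs. -/
def Near {n : ℕ} (t : ℕ) (G : SimpleGraph (Fin n)) : Prop :=
  ∃ A : Set (Fin n), (symmDiff G.edgeSet (bipartite A).edgeSet).ncard ≤ t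

open Classical in
theorem frus_eq {n m : ℕ} (G : SimpleGraph (Fin n)) :
    frustrated (m + 3) G = Pool.Agent.Q265.FC.fk m G := by
  unfold frustrated Pool.Agent.Q265.FC.fk
  rw [Nat.card_eq_fintype_card, Fintype.card_subtype]
  congr 1
  ext f
  simp only [Finset.mem_filter, Finset.mem_univ, true_and]
  rw [Nat.card_eq_fintype_card, Fintype.card_subtype, Pool.Agent.Q265.FC.hh]
  simp only [finRotate_apply]

theorem z2cases : ∀ a b : ZMod 2, (a + b = 1 ↔ ((a = 1 ∧ b ≠ 1) ∨ (a ≠ 1 ∧ b = 1))) := by decide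

theorem sgn {n : ℕ} (G : SimpleGraph (Fin n)) (x y : Fin n) :
    Pool.Agent.Q265.FC.sg G x y = 1 ↔ G.Adj x y := by
  unfold Pool.Agent.Q265.FC.sg
  split_ifs with h
  · simp [h]
  · simp [h]

theorem bip_iff {n : ℕ} (s : Fin n → ZMod 2) (x y : Fin n) :
    (bipartite {z | s z = 1}).Adj x y ↔ s x + s y = 1 := by
  rw [z2cases]
  exact Iff.rfl

/-- For all `k ≥ 3` and `t` and all large `n`: if a graph `G` on `n` vertices has fewer frustrated
`k`-cycles than the `(t+1)`-star, then `G` or its complement is within `t` flips of a complete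
bipartite graph. -/
theorem result : ∀ k, 3 ≤ k → ∀ t : ℕ, ∃ n0, ∀ n, n0 ≤ n → ∀ G : SimpleGraph (Fin n),
    frustrated k G < frustrated k (starGraph n (t + 1)) → Near t G ∨ Near t Gᶜ := by
  classical
  intro k hk t
  obtain ⟨m, rfl⟩ : ∃ m, k = m + 3 := ⟨k - 3, by omega⟩
  obtain ⟨n0, h0⟩ := Pool.Agent.Q265.FC.main m t
  refine ⟨max n0 (t + 3), fun n hn G hlt => ?_⟩
  have hn0 : n0 ≤ n := le_trans (le_max_left _ _) hn
  have hnt : t + 3 ≤ n := le_trans (le_max_right _ _) hn
  rw [frus_eq, frus_eq] at hlt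
  set c : Fin n := ⟨0, by omega⟩ with hc
  set L : Finset (Fin n) := Finset.univ.filter fun y => 1 ≤ y.val ∧ y.val ≤ t + 1 with hL
  have hcL : c ∉ L := by
    rw [hL, Finset.mem_filter]
    rintro ⟨-, h, -⟩
    simp [hc] at h
  have hLc : L.card = t + 1 := by
    have : L = (Finset.Icc 1 (t + 1)).attachFin (fun a ha => by
        rw [Finset.mem_Icc] at ha; omega) := by
      ext y
      rw [hL, Finset.mem_filter, Finset.mem_attachFin, Finset.mem_Icc]
      simp
    rw [this, Finset.card_attachFin, Nat.card_Icc]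
    omega
  have hstar : starGraph n (t + 1) = Pool.Agent.Q265.FC.star c L hcL := by
    ext x y
    change ((x.val = 0 ∧ 1 ≤ y.val ∧ y.val ≤ t + 1) ∨ (y.val = 0 ∧ 1 ≤ x.val ∧ x.val ≤ t + 1)) ↔
      ((x = c ∧ y ∈ L) ∨ (y = c ∧ x ∈ L))
    have e : ∀ z : Fin n, z = c ↔ z.val = 0 := fun z => by rw [hc, Fin.ext_iff]
    have e2 : ∀ z : Fin n, z ∈ L ↔ (1 ≤ z.val ∧ z.val ≤ t + 1) := fun z => by
      rw [hL, Finset.mem_filter]; simp
    rw [e, e, e2, e2]
  rw [hstar] at hlt
  obtain ⟨s, h, hcard⟩ := h0 n hn0 (Fin n) (Fintype.card_fin n) G c L hcL hLc hlt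
  have hncard : ∀ E : Set (Sym2 (Fin n)), E = (Pool.Agent.Q265.FC.flip G s h).edgeSet →
      E.ncard ≤ t := by
    rintro E rfl
    rw [← SimpleGraph.coe_edgeFinset, Set.ncard_coe_finset]
    exact hcard
  rcases Pool.Agent.Q265.FC.z2 h with hh | hh
  · left
    refine ⟨{z | s z = 1}, hncard _ ?_⟩
    ext e
    induction e with
    | _ x y =>
    rw [Set.mem_symmDiff, SimpleGraph.mem_edgeSet, SimpleGraph.mem_edgeSet,
      SimpleGraph.mem_edgeSet, bip_iff, ← sgn]
    change _ ↔ (x ≠ y ∧ Pool.Agent.Q265.FC.sg G x y + s x + s y + h = 1)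
    rw [hh, add_zero, add_assoc, z2cases (Pool.Agent.Q265.FC.sg G x y) (s x + s y)]
    by_cases hxy : x = y
    · subst hxy
      have h1 : ¬ Pool.Agent.Q265.FC.sg G x x = 1 := by
        rw [sgn]; exact G.loopless.irrefl x
      have h2 : ¬ s x + s x = 1 := by
        rw [CharTwo.add_self_eq_zero]; decide
      tauto
    · tauto
  · right
    refine ⟨{z | s z = 1}, hncard _ ?_⟩
    ext e
    induction e with
    | _ x y =>
    rw [Set.mem_symmDiff, SimpleGraph.mem_edgeSet, SimpleGraph.mem_edgeSet,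
      SimpleGraph.mem_edgeSet, bip_iff]
    change _ ↔ (x ≠ y ∧ Pool.Agent.Q265.FC.sg G x y + s x + s y + h = 1)
    rw [SimpleGraph.compl_adj, ← sgn]
    by_cases hxy : x = y
    · subst hxy
      have h2 : ¬ s x + s x = 1 := by
        rw [CharTwo.add_self_eq_zero]; decide
      tauto
    · rw [hh, add_assoc (Pool.Agent.Q265.FC.sg G x y)]
      have key : ∀ a b : ZMod 2, (((¬ a = 1) ∧ ¬ b = 1) ∨ (b = 1 ∧ ¬ (¬ a = 1))) ↔
          a + b + 1 = 1 := by decide
      rw [← key]
      have hne : x ≠ y := hxy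
      tauto

end Pool.Agent.Results.MP_9feecb_co.FewFrustratedCycles
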